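import Pool.Agent.Lib.MP_a3a416_nt.EV.First
import Pool.Agent.Lib.MP_a3a416_nt.EV.Square

/-!
# The Bernoulli numbers modulo every prime

An odd prime `p` is regular iff `p` divides none of the numerators of `B_2, B_4, ..., B_{p-3}` (Kummer).  For EVERY prime
`p` (with `B_1 = -1/2`):

1. Every window `(e, f]` with `f ≤ p - 2` contains at least `(f - e) / (4 √f) - 1` indices `k` with `p ∤ B_k`.
2. More generally, let `f ≤ p - 2`, `e, s, d, m ≥ 0`, and let `q_0, ..., q_s` be integer polynomials of degree at most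
   `d`, not all zero modulo `p`.  If `q_0(k) B_k + q_1(k) B_{k+1} + ... + q_s(k) B_{k+s} ≡ 0 (mod p)` for all `k` with
   `e < k ≤ f - s` outside `m` intervals `[u_j, v_j]`, then `z = f - e - ∑ (v_j - u_j)` is negative or
   `z² ≤ 16 f (m + d + 1) (m + s + d + 1)`.  (In Lean the subtractions are truncated at `0`.  Part 1 is the case `q_0 = 1`,
   `s = d = 0`, `u_j = v_j` the indices `k` in `(e, f]` with `p ∤ B_k`.)  For `m = d = 0`: the numbers `B_k mod p`,
   `e < k ≤ f`, satisfy no linear recurrence with constant coefficients of order less than `(f - e)² / (16 f) - 1`.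
3. Sharper at the start: if `(d + 2) (s + d + 1) ≤ p`, such a recurrence fails for some `k < (d + 1) (s + d + 1)`.

The proof of 3 (and, with left multiples in the Weyl algebra, of 2) shows that, if `(N + 1) (D + 1) ≤ p`, the square matrix
over `𝔽_p` with the rows `0 ≤ k < N (D + 1)`, the columns `(r, i)`, `0 ≤ r < N`, `0 ≤ i ≤ D`, and the entries
`(k + i) (k + i - 1) ⋯ (k + i - r + 1) B_{k+i-r}` is invertible: `Lib/MP_a3a416_nt/EV/Square.lean`.

(`p` divides a rational number if it divides its numerator; all denominators here are prime to `p`.)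
-/

namespace Pool.Agent.Results.MP_a3a416_nt.EveryPrime

theorem result : ∀ p : ℕ, p.Prime →
    (∀ e f : ℕ, f + 2 ≤ p → (f - e) ^ 2 ≤ 16 * f *
      (((Finset.Ioc e f).filter fun k : ℕ => ¬ (p : ℤ) ∣ (bernoulli k).num).card + 1) ^ 2) ∧
    (∀ (e f s d m : ℕ) (q : ℕ → Polynomial ℤ) (u v : ℕ → ℕ), f + 2 ≤ p →
      (∀ i ≤ s, (q i).natDegree ≤ d) → (∃ i ≤ s, ∃ j, ¬ (p : ℤ) ∣ (q i).coeff j) →
      (∀ k : ℕ, e < k → k + s ≤ f → (∀ j < m, k ∉ Finset.Icc (u j) (v j)) →
        (p : ℤ) ∣ (∑ i ∈ Finset.range (s + 1),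
          (((q i).eval (k : ℤ) : ℤ) : ℚ) * bernoulli (k + i)).num) →
      (f - e - ∑ j ∈ Finset.range m, (v j - u j)) ^ 2 ≤
        16 * f * ((m + d + 1) * (m + s + d + 1))) ∧
    (∀ (s d : ℕ) (q : ℕ → Polynomial ℤ), (d + 2) * (s + d + 1) ≤ p →
      (∀ i ≤ s, (q i).natDegree ≤ d) → (∃ i ≤ s, ∃ j, ¬ (p : ℤ) ∣ (q i).coeff j) →
      ∃ k < (d + 1) * (s + d + 1), ¬ (p : ℤ) ∣ (∑ i ∈ Finset.range (s + 1),
        (((q i).eval (k : ℤ) : ℤ) : ℚ) * bernoulli (k + i)).num) := by
  intro p hp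
  exact ⟨fun e f hf => Lib.MP_a3a416_nt.EV.window_count p hp e f hf,
    fun e f s d m q u v hf hq hq0 h =>
      Lib.MP_a3a416_nt.EV.main1 p hp e f s d m hf q hq hq0 u v h,
    fun s d q h hq hq0 => Lib.MP_a3a416_nt.EV.first p hp s d h q hq hq0⟩

end Pool.Agent.Results.MP_a3a416_nt.EveryPrime
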