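import Pool.Agent.Lib.MP_a3a416_nt.GW.Win
import Pool.Agent.Lib.MP_a3a416_nt.GW.NonZ
import Pool.Agent.Lib.MP_a3a416_nt.GW.Many

/-!
# The gaps between the regular indices near the prime

An odd prime `p` is regular iff it divides none of the numerators of `B_2, B_4, ..., B_{p-3}` (Kummer).  Call an odd index
`k ≥ 3` regular for `p` if `p` does not divide the numerator of `B_{p-k}`.  (In Lean `p - k = 0` and `B_0 = 1` for
`k ≥ p`, so such `k` count as regular in 1 and 2; they do not count in 3.)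

1. The gap law.  There is an absolute constant `C` such that for all `x`, `1 ≤ L ≤ J`, `0 < ρ ≤ 1`, `C J ≤ ρ L^2`
   at most `C log(2J) (1/(ρ^3 L) + J/(ρ^4 x)) x/log x` primes `p ≤ x` have at least `ρ J` indices `k = 2g + 1`,
   `1 ≤ g ≤ J`, in runs of length `L` of consecutive odd indices, up to `2J + 1`, which are not regular.
2. All `J`, all `L` and all windows at once.  For `δ, ε > 0` there are `J₀, x₀` such that for `x ≥ x₀` all but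
   `ε x/log x` of the primes `p ≤ x` have
   * for ALL `J ≥ J₀`, `L ≥ 1` at most `J^(1+δ) max(L^(-1/3), J/L^2, (J/x)^(1/4))` such indices;
   * in EVERY interval `(e, e+z]`, `e ≥ J₀`, `z ≤ e`, at least `e^(-δ) min(z^(3/2)/e, z^4/e^3)` regular indices if
     `z ≥ e^δ max(e^(3/4), e^(5/4) x^(-1/4))`, and at least `e^(-δ) min(z^(4/3)/e, z^(3/2) x^(1/2)/e^2)` if
     `z ≥ e^δ max(e^(3/4), e^(4/3) x^(-1/3))`.
   (So for almost all `p` the gap after a large regular index `k` is at most `k^δ max(k^(3/4), k^(4/3) p^(-1/3))`, and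
   `(e, 2e]` contains at least `e^(1/2-δ)` regular indices for all large `e ≤ p^(1-4δ)`.)
3. There are absolute constants `c, C > 0` such that for `K ≥ 2` and all `M, x`, all but at most
   `C (log K/√K + M log M/x) π(x)` of the primes `p ≤ x` have for EVERY `J` with `K ≤ J ≤ M` at least `c √J` numbers not
   divisible by `p` among `B_{p-3}, B_{p-5}, ..., B_{p-1-2J}`.
-/

namespace Pool.Agent.Results.MP_a3a416_nt.GapLaw

open Classical in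
/-- The integers `g` in `[1, J]` which lie in a run of `L` consecutive integers `u, u + 1, ..., u + L - 1` of `[1, J]`
such that `p` divides the numerator of `B_{p-1-2g'}` for all `g'` in the run. -/
noncomputable def inRuns (J L p : ℕ) : Finset ℕ :=
  (Finset.Icc 1 J).filter (fun g => ∃ u : ℕ, 1 ≤ u ∧ u ≤ g ∧ g < u + L ∧ u + L ≤ J + 1 ∧
    ∀ g' ∈ Finset.Ico u (u + L), (p : ℤ) ∣ (bernoulli (p - 1 - 2 * g')).num)

open Classical in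
/-- The odd integers `k` in `(e, e + z]` such that `p` does not divide the numerator of `B_{p-k}`. -/
noncomputable def regIn (e z p : ℕ) : Finset ℕ :=
  (Finset.Ioc e (e + z)).filter (fun k : ℕ => Odd k ∧ ¬ (p : ℤ) ∣ (bernoulli (p - k)).num)

/-- The gap law for `p`: for all `J ≥ J₀`, `L ≥ 1` at most `J^(1+δ) max(L^(-1/3), J/L^2, (J/x)^(1/4))` of the `g ≤ J` lie
in runs of length `L`, and all windows `(e, e+z]` with `J₀ ≤ e`, `z ≤ e` which are not too short contain many regular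
indices. -/
def Law (δ : ℝ) (J₀ x p : ℕ) : Prop :=
  (∀ J L : ℕ, J₀ ≤ J → 1 ≤ L → ((inRuns J L p).card : ℝ) ≤
    (J : ℝ) ^ (1 + δ) * max (max ((L : ℝ) ^ (-(1 / 3) : ℝ)) ((J : ℝ) / (L : ℝ) ^ 2))
      (((J : ℝ) / x) ^ (1 / 4 : ℝ))) ∧
  (∀ e z : ℕ, J₀ ≤ e → z ≤ e → (e : ℝ) ^ (3 / 4 + δ) ≤ z →
    ((e : ℝ) ^ (5 / 4 + δ) ≤ z * (x : ℝ) ^ (1 / 4 : ℝ) →
      (e : ℝ) ^ (-δ) * min ((z : ℝ) ^ (3 / 2 : ℝ) / e) ((z : ℝ) ^ 4 / (e : ℝ) ^ 3) ≤ ((regIn e z p).card : ℝ)) ∧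
    ((e : ℝ) ^ (4 / 3 + δ) ≤ z * (x : ℝ) ^ (1 / 3 : ℝ) →
      (e : ℝ) ^ (-δ) * min ((z : ℝ) ^ (4 / 3 : ℝ) / e)
        ((z : ℝ) ^ (3 / 2 : ℝ) * (x : ℝ) ^ (1 / 2 : ℝ) / (e : ℝ) ^ 2) ≤ ((regIn e z p).card : ℝ)))

open Classical in
theorem result :
    (∃ C : ℝ, 0 < C ∧ ∀ (J L x : ℕ) (ρ : ℝ), 1 ≤ L → L ≤ J → 0 < ρ → ρ ≤ 1 →
      C * J ≤ ρ * (L : ℝ) ^ 2 →
      (((Finset.Icc 1 x).filter (fun p : ℕ => p.Prime ∧
        ρ * J ≤ ((inRuns J L p).card : ℝ))).card : ℝ) ≤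
        C * (Real.log (2 * J) * (1 / (ρ ^ 3 * L) + J / (ρ ^ 4 * x)) * (x / Real.log x))) ∧
    (∀ δ ε : ℝ, 0 < δ → 0 < ε → ∃ J₀ x₀ : ℕ, ∀ x : ℕ, x₀ ≤ x →
      (((Finset.Icc 1 x).filter (fun p : ℕ => p.Prime ∧ ¬ Law δ J₀ x p)).card : ℝ) ≤
        ε * (x / Real.log x)) ∧
    (∃ c C : ℝ, 0 < c ∧ 0 < C ∧ ∀ K M x : ℕ, 2 ≤ K →
      (((Finset.Icc 1 x).filter (fun p : ℕ => p.Prime ∧ ∃ J : ℕ, K ≤ J ∧ J ≤ M ∧
        (((Finset.Icc 1 J).filter (fun g : ℕ => 2 * g + 3 ≤ p ∧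
          ¬ (p : ℤ) ∣ (bernoulli (p - 1 - 2 * g)).num)).card : ℝ) < c * Real.sqrt J)).card : ℝ) ≤
      C * (Real.log K / Real.sqrt K + M * Real.log M / x) * Nat.primeCounting x) := by
  refine ⟨_root_.MP_a3a416_nt.GW.gap_law_w, ?_, _root_.MP_a3a416_nt.GW.nonzero_w⟩
  intro δ ε hδ hε
  obtain ⟨J₁, x₁, h₁⟩ := _root_.MP_a3a416_nt.GW.law_w δ (ε / 3) hδ (by linarith)
  obtain ⟨e₂, x₂, h₂⟩ := _root_.MP_a3a416_nt.GW.window_w δ (ε / 3) hδ (by linarith)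
  obtain ⟨e₃, x₃, h₃⟩ := _root_.MP_a3a416_nt.GW.many_w δ hδ (ε / 3) (by linarith)
  refine ⟨max J₁ (max e₂ e₃), max x₁ (max x₂ x₃), fun x hx => ?_⟩
  have g₁ := h₁ x ((le_max_left _ _).trans hx)
  have g₂ := h₂ x ((le_max_left _ _).trans ((le_max_right _ _).trans hx))
  have g₃ := h₃ x ((le_max_right _ _).trans ((le_max_right _ _).trans hx))
  refine le_trans ?_ (le_trans (add_le_add g₁ (add_le_add g₂ g₃)) (le_of_eq (by ring)))
  have hsub : (Finset.Icc 1 x).filter (fun p : ℕ => p.Prime ∧ ¬ Law δ (max J₁ (max e₂ e₃)) x p) ⊆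
      (Finset.Icc 1 x).filter (fun p : ℕ => p.Prime ∧ ∃ J L : ℕ, J₁ ≤ J ∧ 1 ≤ L ∧
        (J : ℝ) ^ (1 + δ) * max (max ((L : ℝ) ^ (-(1 / 3) : ℝ)) ((J : ℝ) / (L : ℝ) ^ 2))
          (((J : ℝ) / x) ^ (1 / 4 : ℝ)) < ((_root_.MP_a3a416_nt.GL.LR J L p).card : ℝ)) ∪
      ((Finset.Icc 1 x).filter (fun p : ℕ => p.Prime ∧ ∃ e z : ℕ, e₂ ≤ e ∧ z ≤ e ∧
        (e : ℝ) ^ (3 / 4 + δ) ≤ z ∧ (e : ℝ) ^ (5 / 4 + δ) ≤ z * (x : ℝ) ^ (1 / 4 : ℝ) ∧
        (((Finset.Ioc e (e + z)).filter (fun k : ℕ => Odd k ∧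
          ¬ (p : ℤ) ∣ (_root_.bernoulli (p - k)).num)).card : ℝ) <
          (e : ℝ) ^ (-δ) * min ((z : ℝ) ^ (3 / 2 : ℝ) / e) ((z : ℝ) ^ 4 / (e : ℝ) ^ 3)) ∪
      (Finset.Icc 1 x).filter (fun p : ℕ => p.Prime ∧ ∃ e z : ℕ, e₃ ≤ e ∧ z ≤ e ∧
        (e : ℝ) ^ (3 / 4 + δ) ≤ z ∧ (e : ℝ) ^ (4 / 3 + δ) ≤ z * (x : ℝ) ^ (1 / 3 : ℝ) ∧
        (((Finset.Ioc e (e + z)).filter (fun k : ℕ => Odd k ∧
          ¬ (p : ℤ) ∣ (_root_.bernoulli (p - k)).num)).card : ℝ) <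
            (e : ℝ) ^ (-δ) * min ((z : ℝ) ^ (4 / 3 : ℝ) / e)
              ((z : ℝ) ^ (3 / 2 : ℝ) * (x : ℝ) ^ (1 / 2 : ℝ) / (e : ℝ) ^ 2))) := by
    intro p hp
    rw [Finset.mem_filter] at hp
    rw [Finset.mem_union, Finset.mem_union, Finset.mem_filter, Finset.mem_filter, Finset.mem_filter]
    obtain ⟨hpx, hpp, hL⟩ := hp
    by_contra hcon
    push Not at hcon
    obtain ⟨c₁, c₂, c₃⟩ := hcon
    apply hL
    refine ⟨fun J L hJ hL1 => c₁ hpx hpp J L ((le_max_left _ _).trans hJ) hL1, ?_⟩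
    intro e z he hze hez
    exact ⟨fun hex => c₂ hpx hpp e z ((le_max_left _ _).trans ((le_max_right _ _).trans he)) hze hez hex,
      fun hex => c₃ hpx hpp e z ((le_max_right _ _).trans ((le_max_right _ _).trans he)) hze hez hex⟩
  have hc := (Finset.card_le_card hsub).trans (Finset.card_union_le _ _)
  have hc2 := hc.trans (add_le_add le_rfl (Finset.card_union_le _ _))
  exact_mod_cast hc2

end Pool.Agent.Results.MP_a3a416_nt.GapLaw
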