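import Pool.Agent.Lib.MP_a3a416_nt.LD.Indep
import Pool.Agent.Lib.MP_a3a416_nt.GW.LCount

/-!
# Windows of Bernoulli numbers near `p`

An odd prime `p` is regular iff it divides none of the numerators of `B_2, B_4, ..., B_{p-3}`.  There are absolute
constants `c, C > 0` such that for all windows `(e, e+z]`:

(1) For all `x` and all integers `v_l(k)`, `0 ≤ l ≤ r`, `e < k ≤ e+z`, of absolute value at most `exp(x/z)`, at most
`C (r+1)^2 ((e+z)^2 log(2z)/z^2) (1/z + (e+z)/x) x/log x` primes `p ≤ x` have integers `λ_1, ..., λ_r` with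
`B_{p-k} ≡ v_0(k) + λ_1 v_1(k) + ... + λ_r v_r(k) (mod p)` for all odd `k ≥ 3`, `e < k ≤ e+z`.

(2) There is a set `G` of odd integers `k ≥ 3` in `(e, e+z]`, `#G + 1 ≥ c (z^3/((e+z)^2 log(2z)))^(1/2)`, such that `1` and
the finite zeta values `(B_{p-k} mod p)_p`, `k ∈ G`, are linearly independent over `ℚ`: for integers `a_0` and `a_k`, not
all zero, `a_0 + ∑ a_k B_{p-k} ≢ 0 (mod p)` for a set of primes of positive upper density.

(`p` divides a rational number if it divides its numerator.)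
-/

namespace Pool.Agent.Results.MP_a3a416_nt.LocalDimension

open Classical in
theorem result : ∃ c C : ℝ, 0 < c ∧ 0 < C ∧
    (∀ (e z r x : ℕ) (v : ℕ → ℕ → ℤ), 1 ≤ z →
      (∀ l ≤ r, ∀ k : ℕ, e < k → k ≤ e + z → ((|v l k| : ℤ) : ℝ) ≤ Real.exp ((x : ℝ) / z)) →
      (((Finset.Icc 1 x).filter (fun p : ℕ => p.Prime ∧ ∃ lam : ℕ → ℤ,
        ∀ k : ℕ, Odd k → 3 ≤ k → e < k → k ≤ e + z →
          (p : ℤ) ∣ (bernoulli (p - k) -
            (v 0 k + ∑ l ∈ Finset.range r, (lam l : ℚ) * v (l + 1) k)).num)).card : ℝ) ≤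
        C * (((r : ℝ) + 1) ^ 2 * (((e : ℝ) + z) ^ 2 * Real.log (2 * z) / (z : ℝ) ^ 2) *
          (1 / (z : ℝ) + ((e : ℝ) + z) / x) * (x / Real.log x))) ∧
    (∀ e z : ℕ, 1 ≤ z → ∃ G : Finset ℕ, (∀ k ∈ G, Odd k ∧ 3 ≤ k ∧ e < k ∧ k ≤ e + z) ∧
      c * √((z : ℝ) ^ 3 / (((e : ℝ) + z) ^ 2 * Real.log (2 * z))) ≤ (G.card : ℝ) + 1 ∧
      ∀ (a₀ : ℤ) (a : ℕ → ℤ), (a₀ ≠ 0 ∨ ∃ k ∈ G, a k ≠ 0) →
        ∃ δ : ℝ, 0 < δ ∧ ∀ x₀ : ℕ, ∃ x : ℕ, x₀ ≤ x ∧
          δ * Nat.primeCounting x ≤ (((Finset.Icc 1 x).filter (fun p : ℕ => p.Prime ∧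
            ¬ (p : ℤ) ∣ (a₀ + ∑ k ∈ G, a k * bernoulli (p - k)).num)).card : ℝ)) := by
  obtain ⟨C, hC, h1⟩ := _root_.MP_a3a416_nt.GW.count_LDw
  obtain ⟨c, hc, h2⟩ := _root_.MP_a3a416_nt.LD.indep_W
  refine ⟨c, C, hc, hC, ?_, ?_⟩
  · intro e z r x v hz hv
    refine le_trans ?_ (h1 e z r x (fun l g => v l (2 * g + 1)) hz
      (fun l hl g _ hg2 hg3 => hv l hl (2 * g + 1) (by omega) hg3))
    have hsub : (Finset.Icc 1 x).filter (fun p : ℕ => p.Prime ∧ ∃ lam : ℕ → ℤ,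
        ∀ k : ℕ, Odd k → 3 ≤ k → e < k → k ≤ e + z →
          (p : ℤ) ∣ (bernoulli (p - k) -
            (v 0 k + ∑ l ∈ Finset.range r, (lam l : ℚ) * v (l + 1) k)).num) ⊆
        (Finset.Icc 1 x).filter (fun p : ℕ => p.Prime ∧ ∃ lam : ℕ → ℤ,
          _root_.MP_a3a416_nt.LD.Bad e z r (fun l g => v l (2 * g + 1)) lam p) := by
      intro p hp
      rw [Finset.mem_filter] at hp ⊢
      obtain ⟨hp1, hp2, lam, hlam⟩ := hp
      refine ⟨hp1, hp2, lam, fun g hg1 hg2 hg3 => ?_⟩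
      have h3 := hlam (2 * g + 1) ⟨g, rfl⟩ (by omega) (by omega) (by omega)
      have h4 : p - (2 * g + 1) = p - 1 - 2 * g := by omega
      rw [h4] at h3
      unfold _root_.MP_a3a416_nt.LI.comb
      push_cast
      exact h3
    exact_mod_cast Finset.card_le_card hsub
  · intro e z hz
    obtain ⟨G, hG1, hG2, hG3⟩ := h2 e z hz
    have hinj : Function.Injective (fun g : ℕ => 2 * g + 1) := fun a b h => by
      simp only at h
      omega
    refine ⟨G.image (fun g => 2 * g + 1), ?_, ?_, ?_⟩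
    · intro k hk
      rw [Finset.mem_image] at hk
      obtain ⟨g, hg, rfl⟩ := hk
      obtain ⟨h3, h4, h5⟩ := hG1 g hg
      exact ⟨⟨g, rfl⟩, by omega, by omega, h5⟩
    · rw [Finset.card_image_of_injective _ hinj]
      exact hG2
    · intro a₀ a ha
      obtain ⟨δ, hδ, h3⟩ := hG3 a₀ (fun g => a (2 * g + 1)) (by
        rcases ha with ha | ⟨k, hk, hak⟩
        · exact Or.inl ha
        · rw [Finset.mem_image] at hk
          obtain ⟨g, hg, rfl⟩ := hk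
          exact Or.inr ⟨g, hg, hak⟩)
      refine ⟨δ, hδ, fun x₀ => ?_⟩
      obtain ⟨x, hx, h4⟩ := h3 x₀
      refine ⟨x, hx, h4.trans (le_of_eq ?_)⟩
      congr 2
      refine Finset.filter_congr fun p _ => ?_
      have h5 : ∑ k ∈ G.image (fun g => 2 * g + 1), (a k : ℚ) * bernoulli (p - k) =
          ∑ g ∈ G, (a (2 * g + 1) : ℚ) * bernoulli (p - 1 - 2 * g) := by
        rw [Finset.sum_image (fun i _ j _ hij => hinj hij)]
        refine Finset.sum_congr rfl fun g _ => ?_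
        have h6 : p - (2 * g + 1) = p - 1 - 2 * g := by omega
        rw [h6]
      rw [h5]

end Pool.Agent.Results.MP_a3a416_nt.LocalDimension
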