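import Pool.Agent.Lib.L1.BThm
import Pool.Agent.Lib.MP_a3a416_nt.AlmostAll

/-!
# A positive proportion of the primes `p` passes the first `c₀ √(p / log p)` tests and the last one

An odd prime `p` is regular iff it divides none of the numerators of `B_2, B_4, ..., B_{p-3}`.
For `(s, k) = (3, 10), (5, 15), (7, 82)`, all large `x` and every rational number `c` whose numerator
and denominator are at most `exp (x / 10000)` in absolute value, at least `x / (k log x)` primes `p`,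
`s + 2 ≤ p ≤ x`, divide neither the numerator of `B_{p-s} - c` nor any of `B_2, B_4, ..., B_{2j}`,
`j ≤ c₀ √(p / log p)`.
-/

namespace Pool.Agent.Results.MP_a3a416_nt.SingleIndices

open Finset Filter

open Classical in
private theorem three_five_seven (s k : ℕ) (h : (s = 3 ∧ k = 10) ∨ (s = 5 ∧ k = 15) ∨ (s = 7 ∧ k = 82)) :
    ∀ᶠ x : ℕ in atTop, ∀ c : ℚ,
    |(c.num : ℝ)| ≤ Real.exp (x / 10000) → (c.den : ℝ) ≤ Real.exp (x / 10000) →
    (1 / (k : ℝ) + 1 / 20000) * ((x : ℝ) / Real.log x) ≤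
      (((Finset.range (x + 1)).filter (fun p : ℕ => p.Prime ∧ s + 2 ≤ p ∧ ¬ L1.Flat s c p)).card : ℝ) := by
  have key : ∀ κ : ℝ, 12 * L1.archC s + κ < L1.Tot s → (0 : ℝ) < k →
      (11 * (s : ℝ) + 21) * (1 / k + 1 / 20000) * (12 * (s + 2)) +
        12 * (s + 1) * (12 * (s + 2)) / 10000 < κ →
      s = 3 ∨ s = 5 ∨ s = 7 → ∀ᶠ x : ℕ in atTop, ∀ c : ℚ,
      |(c.num : ℝ)| ≤ Real.exp (x / 10000) → (c.den : ℝ) ≤ Real.exp (x / 10000) →
      (1 / (k : ℝ) + 1 / 20000) * ((x : ℝ) / Real.log x) ≤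
      (((Finset.range (x + 1)).filter (fun p : ℕ => p.Prime ∧ s + 2 ≤ p ∧ ¬ L1.Flat s c p)).card : ℝ) := by
    intro κ h1 h2 h3 hs
    obtain ⟨C, hC⟩ := L1.det_data s (by rcases hs with rfl | rfl | rfl <;> decide) (by omega) (by omega)
    exact L1.main_core hs h1 (by positivity) h3 hC
  rcases h with ⟨rfl, rfl⟩ | ⟨rfl, rfl⟩ | ⟨rfl, rfl⟩
  · exact key 331 L1.num3 (by norm_num) (by norm_num) (by norm_num)
  · exact key 455 L1.num5 (by norm_num) (by norm_num) (by norm_num)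
  · exact key 131 L1.num7 (by norm_num) (by norm_num) (by norm_num)

theorem result : ∃ c₀ : ℝ, 0 < c₀ ∧ ∀ s k : ℕ,
    (s = 3 ∧ k = 10) ∨ (s = 5 ∧ k = 15) ∨ (s = 7 ∧ k = 82) →
    ∃ x₀ : ℕ, ∀ x : ℕ, x₀ ≤ x → ∀ c : ℚ,
    |(c.num : ℝ)| ≤ Real.exp (x / 10000) → (c.den : ℝ) ≤ Real.exp (x / 10000) →
    (x : ℝ) / (k * Real.log x) ≤
      (Set.ncard {p : ℕ | s + 2 ≤ p ∧ p ≤ x ∧ p.Prime ∧
        ¬ (p : ℤ) ∣ (bernoulli (p - s) - c).num ∧
        ∀ j : ℕ, 1 ≤ j → (j : ℝ) ≤ c₀ * Real.sqrt (p / Real.log p) →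
          ¬ (p : ℤ) ∣ (bernoulli (2 * j)).num} : ℝ) := by
  classical
  obtain ⟨C, hC⟩ := Pool.Agent.Lib.MP_a3a416_nt.almost_all (δ := 1) one_pos
  set l : ℝ := 1 + 40000 * |C| with hl
  have hl1 : 1 ≤ l := by rw [hl]; linarith [abs_nonneg C]
  have hl0 : 0 < l := by linarith
  refine ⟨1 / Real.sqrt (2 * l), by positivity, ?_⟩
  intro s k h
  have h1 := three_five_seven s k h
  have hk0 : (0 : ℝ) < k := by
    rcases h with ⟨_, rfl⟩ | ⟨_, rfl⟩ | ⟨_, rfl⟩ <;> norm_num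
  -- `√x ≤ (1 / 40000) x / log x` for large `x`
  have h2 : ∀ᶠ x : ℕ in atTop, Real.sqrt x ≤ 1 / 40000 * ((x : ℝ) / Real.log x) := by
    have h3 : Tendsto (fun x : ℝ => Real.log x / x ^ (1 / 2 : ℝ)) atTop (nhds 0) :=
      (isLittleO_log_rpow_atTop (by norm_num)).tendsto_div_nhds_zero
    have h4 := (h3.comp tendsto_natCast_atTop_atTop).eventually (gt_mem_nhds
      (show (0 : ℝ) < 1 / 40000 by norm_num))
    filter_upwards [h4, eventually_ge_atTop 3] with x hx hx3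
    have hx0 : (0 : ℝ) < x := by positivity
    have hlog : 0 < Real.log x := Real.log_pos (by
      have : (3 : ℝ) ≤ x := by exact_mod_cast hx3
      linarith)
    simp only [Function.comp] at hx
    rw [← Real.sqrt_eq_rpow, div_lt_iff₀ (Real.sqrt_pos.2 hx0)] at hx
    have h5 : Real.sqrt x * Real.sqrt x = x := Real.mul_self_sqrt hx0.le
    rw [← mul_div_assoc, le_div_iff₀ hlog]
    have h6 : Real.sqrt x * Real.log x ≤ Real.sqrt x * (1 / 40000 * Real.sqrt x) :=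
      mul_le_mul_of_nonneg_left hx.le (Real.sqrt_nonneg _)
    calc Real.sqrt x * Real.log x ≤ Real.sqrt x * (1 / 40000 * Real.sqrt x) := h6
      _ = 1 / 40000 * (Real.sqrt x * Real.sqrt x) := by ring
      _ = 1 / 40000 * x := by rw [h5]
  obtain ⟨x₀, hx₀⟩ := eventually_atTop.1 (h1.and (h2.and (eventually_ge_atTop 3)))
  refine ⟨x₀, fun x hx c hc1 hc2 => ?_⟩
  obtain ⟨g1, g2, g3⟩ := hx₀ x hx
  have g3' : (3 : ℝ) ≤ x := by exact_mod_cast g3
  have hlogx : 0 < Real.log x := Real.log_pos (by linarith)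
  have hxl : 0 < (x : ℝ) / Real.log x := div_pos (by linarith) hlogx
  -- the bad primes
  set B : Set ℕ := {p : ℕ | p.Prime ∧ (p : ℝ) ≤ x ∧ ∃ N : ℕ, 1 ≤ N ∧
    Pool.Agent.Lib.MP_a3a416_nt.G 1 (l * (N : ℝ) ^ 2 * Real.log p / p) <
      (Pool.Agent.Lib.MP_a3a416_nt.irr p N : ℝ)} with hB
  have hBfin : B.Finite := (Set.finite_Iic x).subset (fun p hp => by
    have : (p : ℝ) ≤ x := hp.2.1
    exact_mod_cast this)
  have hBc : (B.ncard : ℝ) ≤ 1 / 20000 * ((x : ℝ) / Real.log x) := by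
    have e1 := hC x l (by linarith) hl1
    have e2 : C * ((x : ℝ) / (l * Real.log x)) ≤ 1 / 40000 * ((x : ℝ) / Real.log x) := by
      have e3 : C * ((x : ℝ) / (l * Real.log x)) = C / l * ((x : ℝ) / Real.log x) := by
        field_simp
      rw [e3]
      refine mul_le_mul_of_nonneg_right ?_ hxl.le
      rw [div_le_iff₀ hl0, hl]
      linarith [le_abs_self C]
    linarith
  set T := (Finset.range (x + 1)).filter (fun p : ℕ => p.Prime ∧ s + 2 ≤ p ∧ ¬ L1.Flat s c p) with hT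
  set R : Set ℕ := {p : ℕ | s + 2 ≤ p ∧ p ≤ x ∧ p.Prime ∧
        ¬ (p : ℤ) ∣ (bernoulli (p - s) - c).num ∧
        ∀ j : ℕ, 1 ≤ j → (j : ℝ) ≤ 1 / Real.sqrt (2 * l) * Real.sqrt (p / Real.log p) →
          ¬ (p : ℤ) ∣ (bernoulli (2 * j)).num} with hR
  have hRfin : R.Finite := (Set.finite_Iic x).subset (fun p hp => hp.2.1)
  have hsub : ((T \ hBfin.toFinset : Finset ℕ) : Set ℕ) ⊆ R := by
    intro p hp
    rw [Finset.mem_coe, Finset.mem_sdiff, hT, Finset.mem_filter, Finset.mem_range,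
      Set.Finite.mem_toFinset] at hp
    obtain ⟨⟨hpx, hpp, hsp, hfl⟩, hpB⟩ := hp
    refine ⟨hsp, by omega, hpp, hfl, ?_⟩
    intro j hj hjp hdvd
    apply hpB
    have hp2 : (2 : ℝ) ≤ p := by exact_mod_cast hpp.two_le
    have hlogp : 0 < Real.log p := Real.log_pos (by linarith)
    have hj0 : (0 : ℝ) < j := by positivity
    refine ⟨hpp, by exact_mod_cast (by omega : p ≤ x), j, hj, ?_⟩
    have hw : l * (j : ℝ) ^ 2 * Real.log p / p ≤ 1 / 2 := by
      have e1 : (j : ℝ) ^ 2 ≤ (1 / Real.sqrt (2 * l) * Real.sqrt (p / Real.log p)) ^ 2 :=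
        pow_le_pow_left₀ hj0.le hjp 2
      have e2 : (1 / Real.sqrt (2 * l) * Real.sqrt (p / Real.log p)) ^ 2 =
          1 / (2 * l) * (p / Real.log p) := by
        rw [mul_pow, div_pow, one_pow, Real.sq_sqrt (by positivity), Real.sq_sqrt (by positivity)]
      rw [e2] at e1
      rw [div_le_iff₀ (by linarith)]
      calc l * (j : ℝ) ^ 2 * Real.log p ≤ l * (1 / (2 * l) * (p / Real.log p)) * Real.log p := by
            gcongr
        _ = 1 / 2 * p := by field_simp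
    have hw0 : 0 < l * (j : ℝ) ^ 2 * Real.log p / p := by positivity
    have hG : Pool.Agent.Lib.MP_a3a416_nt.G 1 (l * (j : ℝ) ^ 2 * Real.log p / p) ≤ 1 / 2 := by
      unfold Pool.Agent.Lib.MP_a3a416_nt.G
      rw [max_eq_left (Real.log_nonpos hw0.le (by linarith)), add_zero, Real.one_rpow, mul_one]
      exact hw
    have hirr : 1 ≤ Pool.Agent.Lib.MP_a3a416_nt.irr p j := by
      unfold Pool.Agent.Lib.MP_a3a416_nt.irr
      exact Finset.card_pos.2 ⟨j, by rw [Finset.mem_filter, Finset.mem_Icc]; exact ⟨⟨hj, le_rfl⟩, hdvd⟩⟩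
    have hirr' : (1 : ℝ) ≤ (Pool.Agent.Lib.MP_a3a416_nt.irr p j : ℝ) := by exact_mod_cast hirr
    linarith
  have hcard : (T.card : ℝ) - B.ncard ≤ ((T \ hBfin.toFinset).card : ℝ) := by
    have e1 := Finset.le_card_sdiff hBfin.toFinset T
    rw [← Set.ncard_eq_toFinset_card B hBfin] at e1
    have e2 : (T.card : ℝ) ≤ ((T \ hBfin.toFinset).card : ℝ) + B.ncard := by
      exact_mod_cast (by omega : T.card ≤ (T \ hBfin.toFinset).card + B.ncard)
    linarith
  have g1' := g1 c hc1 hc2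
  have e5 : (x : ℝ) / (k * Real.log x) = 1 / (k : ℝ) * ((x : ℝ) / Real.log x) := by
    field_simp
  have e6 : ((T \ hBfin.toFinset).card : ℝ) ≤ R.ncard := by
    have e8 := Set.ncard_le_ncard hsub hRfin
    rw [Set.ncard_coe_finset] at e8
    exact_mod_cast e8
  rw [e5]
  refine le_trans ?_ e6
  have e7 : (1 / (k : ℝ) + 1 / 20000) * ((x : ℝ) / Real.log x) =
    1 / (k : ℝ) * ((x : ℝ) / Real.log x) + 1 / 20000 * ((x : ℝ) / Real.log x) := by ring
  rw [e7] at g1'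
  linarith

end Pool.Agent.Results.MP_a3a416_nt.SingleIndices
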